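import Pool.Agent.Helper10.BD.Goals

open scoped ContDiff
open Real Filter Topology

namespace Pool.Agent.Helper51.BD.PRD

open Pool.Agent.Helper50.BC (E)
open Pool.Agent.Helper10.BD

/-- derivative of a function of `l⁻¹ • X` -/
lemma comp_smul {q : ℕ} {V : Type*} [NormedAddCommGroup V] [NormedSpace ℝ V] (g : E q → V)
    (hg : Differentiable ℝ g) (i : ℝ) (X : E q) :
    HasFDerivAt (fun X => g (i • X)) (i • fderiv ℝ g (i • X)) X := by
  have h1 : HasFDerivAt (fun X : E q => i • X) (i • ContinuousLinearMap.id ℝ (E q)) X :=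
    (hasFDerivAt_id X).const_smul i
  have h2 := (hg (i • X)).hasFDerivAt.comp X h1
  refine h2.congr_fderiv ?_
  ext v
  simp

section

variable {q : ℕ} {u b0 b1 : E q → ℝ} {l : ℝ}

lemma hasE (hl : 0 < l) (h0 : Differentiable ℝ b0) (X : E q) :
    HasFDerivAt (fun X => EE0 l (b0 (l⁻¹ • X)))
      ((-(23 / 2) * EE0 l (b0 (l⁻¹ • X))) • fderiv ℝ b0 (l⁻¹ • X)) X := by
  unfold EE0
  have h1 := ((((comp_smul b0 h0 l⁻¹ X).const_mul l).const_mul (23 / 2)).neg).exp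
  refine h1.congr_fderiv ?_
  ext v
  simp only [ContinuousLinearMap.smul_apply, ContinuousLinearMap.neg_apply, smul_eq_mul,
    Pi.neg_apply]
  field_simp

lemma hasF (hl : 0 < l) (h1 : Differentiable ℝ b1) (X : E q) :
    HasFDerivAt (fun X => FF1 l (b1 (l⁻¹ • X)))
      ((32 * (FF1 l (b1 (l⁻¹ • X)) * (1 - FF1 l (b1 (l⁻¹ • X))))) • fderiv ℝ b1 (l⁻¹ • X)) X := by
  unfold FF1
  have h2 := (((((comp_smul b1 h1 l⁻¹ X).const_mul l).const_mul 32).neg).exp).const_mul (2 / 3)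
  have h3 := h2.const_add 1
  have hp : (1 + 2 / 3 * exp (-(32 * (l * b1 (l⁻¹ • X))))) ≠ 0 := by positivity
  have h4 := (hasDerivAt_inv hp).comp_hasFDerivAt X h3
  refine h4.congr_fderiv ?_
  ext v
  simp only [ContinuousLinearMap.smul_apply, ContinuousLinearMap.neg_apply, smul_eq_mul,
    Pi.neg_apply]
  field_simp
  ring

lemma hasP (hl : 0 < l) (hu : Differentiable ℝ u) (h0 : Differentiable ℝ b0)
    (h1 : Differentiable ℝ b1) (X : E q) :
    HasFDerivAt (fun X => PP l (u (l⁻¹ • X)) (b0 (l⁻¹ • X)) (b1 (l⁻¹ • X)))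
      ((24 * (1 - EE0 l (b0 (l⁻¹ • X))) *
          (FF1 l (b1 (l⁻¹ • X)) * (1 - FF1 l (b1 (l⁻¹ • X))))) • fderiv ℝ b1 (l⁻¹ • X) +
      (23 / 2 * EE0 l (b0 (l⁻¹ • X)) * (11 / 20 + 3 / 4 * FF1 l (b1 (l⁻¹ • X))) -
          23 / 2 * (u (l⁻¹ • X) * EE0 l (b0 (l⁻¹ • X)))) • fderiv ℝ b0 (l⁻¹ • X) +
      (l⁻¹ * EE0 l (b0 (l⁻¹ • X))) • fderiv ℝ u (l⁻¹ • X)) X := by
  unfold PP
  have hE := hasE hl h0 X
  have hF := hasF hl h1 X
  have hU := comp_smul u hu l⁻¹ X
  have h5 := ((hE.const_sub 1).mul ((hF.const_mul (3 / 4)).const_add (11 / 20))).add (hU.mul hE)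
  refine h5.congr_fderiv ?_
  ext v
  simp only [ContinuousLinearMap.smul_apply, ContinuousLinearMap.neg_apply,
    ContinuousLinearMap.add_apply, smul_eq_mul]
  ring

end

theorem t : G_PRD := by
  intro q u b0 b1 l hl hu h0 h1
  have du : Differentiable ℝ u := hu.differentiable (by simp)
  have d0 : Differentiable ℝ b0 := h0.differentiable (by simp)
  have d1 : Differentiable ℝ b1 := h1.differentiable (by simp)
  have ddu : Differentiable ℝ (fderiv ℝ u) := (hu.fderiv_right (m := 1) (by norm_cast)).differentiable (by simp)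
  have dd0 : Differentiable ℝ (fderiv ℝ b0) := (h0.fderiv_right (m := 1) (by norm_cast)).differentiable (by simp)
  have dd1 : Differentiable ℝ (fderiv ℝ b1) := (h1.fderiv_right (m := 1) (by norm_cast)).differentiable (by simp)
  have hs : ContDiff ℝ ∞ (fun X : E q => l⁻¹ • X) := contDiff_id.const_smul l⁻¹
  refine ⟨?_, ?_⟩
  · unfold PP EE0 FF1
    have hb0 := h0.comp hs
    have hb1 := h1.comp hs
    have hub := hu.comp hs
    have e0 : ContDiff ℝ ∞ (fun X : E q => exp (-(23 / 2 * (l * b0 (l⁻¹ • X))))) :=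
      ((contDiff_const.mul (contDiff_const.mul hb0)).neg).exp
    have e1 : ContDiff ℝ ∞ (fun X : E q => 1 + 2 / 3 * exp (-(32 * (l * b1 (l⁻¹ • X))))) :=
      contDiff_const.add (contDiff_const.mul ((contDiff_const.mul (contDiff_const.mul hb1)).neg).exp)
    exact ((contDiff_const.sub e0).mul (contDiff_const.add (contDiff_const.mul
      (e1.inv (fun X => by positivity))))).add (hub.mul e0)
  · have hfun : fderiv ℝ (fun X => PP l (u (l⁻¹ • X)) (b0 (l⁻¹ • X)) (b1 (l⁻¹ • X))) =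
      fun X => ((24 * (1 - EE0 l (b0 (l⁻¹ • X))) *
          (FF1 l (b1 (l⁻¹ • X)) * (1 - FF1 l (b1 (l⁻¹ • X))))) • fderiv ℝ b1 (l⁻¹ • X) +
      (23 / 2 * EE0 l (b0 (l⁻¹ • X)) * (11 / 20 + 3 / 4 * FF1 l (b1 (l⁻¹ • X))) -
          23 / 2 * (u (l⁻¹ • X) * EE0 l (b0 (l⁻¹ • X)))) • fderiv ℝ b0 (l⁻¹ • X) +
      (l⁻¹ * EE0 l (b0 (l⁻¹ • X))) • fderiv ℝ u (l⁻¹ • X)) := by
      funext X
      exact (hasP hl du d0 d1 X).fderiv
    intro X x hx e f he hf
    subst hx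
    refine ⟨?_, ?_⟩
    · rw [hfun, he, hf]
    · intro ξ
      have hE := hasE hl d0 X
      have hF := hasF hl d1 X
      have hU := comp_smul u du l⁻¹ X
      have hDu := comp_smul (fderiv ℝ u) ddu l⁻¹ X
      have hD0 := comp_smul (fderiv ℝ b0) dd0 l⁻¹ X
      have hD1 := comp_smul (fderiv ℝ b1) dd1 l⁻¹ X
      have c1 := ((hE.const_sub 1).const_mul 24).mul (hF.mul (hF.const_sub 1))
      have c2 := ((hE.const_mul (23 / 2)).mul ((hF.const_mul (3 / 4)).const_add (11 / 20))).sub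
        ((hU.mul hE).const_mul (23 / 2))
      have c3 := hE.const_mul l⁻¹
      have hG := ((c1.smul hD1).add (c2.smul hD0)).add (c3.smul hDu)
      rw [hfun]
      have hG' := hG.fderiv
      have key : fderiv ℝ (fun X => ((24 * (1 - EE0 l (b0 (l⁻¹ • X))) *
          (FF1 l (b1 (l⁻¹ • X)) * (1 - FF1 l (b1 (l⁻¹ • X))))) • fderiv ℝ b1 (l⁻¹ • X) +
        (23 / 2 * EE0 l (b0 (l⁻¹ • X)) * (11 / 20 + 3 / 4 * FF1 l (b1 (l⁻¹ • X))) -
          23 / 2 * (u (l⁻¹ • X) * EE0 l (b0 (l⁻¹ • X)))) • fderiv ℝ b0 (l⁻¹ • X) +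
        (l⁻¹ * EE0 l (b0 (l⁻¹ • X))) • fderiv ℝ u (l⁻¹ • X))) X = _ := hG'
      rw [key]
      simp only [ContinuousLinearMap.add_apply, ContinuousLinearMap.smul_apply,
        ContinuousLinearMap.smulRight_apply, ContinuousLinearMap.neg_apply,
        ContinuousLinearMap.sub_apply, smul_eq_mul, Pi.mul_apply, Pi.add_apply, Pi.sub_apply,
        Pi.neg_apply]
      rw [← he, ← hf]
      ring

end Pool.Agent.Helper51.BD.PRD
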